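import Pool.Agent.H92.Worm2

set_option autoImplicit false
open MeasureTheory ProbabilityTheory Filter Topology
open scoped ENNReal NNReal

namespace Pool.Agent.Results.MP_e1341d_pr.InfiniteMean

/-- the four unit steps of `ℤ²` -/
def step : Fin 4 → ℤ × ℤ := ![(1, 0), (-1, 0), (0, 1), (0, -1)]

/-- the vertices `X(0), …, X(l)` of the walk from the origin with steps `s` -/
def trace {l : ℕ} (s : Fin l → Fin 4) : Finset (ℤ × ℤ) :=
  (Finset.range (l + 1)).image fun t => ∑ j : Fin l, if j.val < t then step (s j) else 0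

/-- the law `ν` of the trace of one worm started at the origin, with length law `m` -/
noncomputable def nu (m : PMF ℕ) : PMF (Finset (ℤ × ℤ)) :=
  m.bind fun l => (PMF.uniformOfFintype (Fin l → Fin 4)).map trace

/-- the law of the numbers `N (x, H)` of worms at `x` with trace `x + H` -/
noncomputable def law (m : PMF ℕ) (v : ℝ≥0) : Measure ((ℤ × ℤ) × Finset (ℤ × ℤ) → ℕ) :=
  Measure.infinitePi fun i => poissonMeasure (v * (nu m i.2).toNNReal)

/-- the union of the traces of all worms -/
def occupied (N : (ℤ × ℤ) × Finset (ℤ × ℤ) → ℕ) : Set (ℤ × ℤ) :=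
  {y | ∃ x H, N (x, H) ≠ 0 ∧ y - x ∈ H}

/-- the nearest-neighbour lattice -/
def lattice : SimpleGraph (ℤ × ℤ) :=
  SimpleGraph.fromRel fun p q => (p.1 - q.1).natAbs + (p.2 - q.2).natAbs = 1

/-- the subgraph induced by `S` has an infinite connected component -/
def Percolates (S : Set (ℤ × ℤ)) : Prop :=
  ∃ K : (lattice.induce S).ConnectedComponent, K.supp.Infinite

open Pool.Agent.H92.Worm

lemma tsum_bind {α β : Type} (p : PMF α) (f : α → PMF β) (F : β → ℝ≥0∞) :
    ∑' b, p.bind f b * F b = ∑' a, p a * ∑' b, f a b * F b := by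
  simp only [PMF.bind_apply, ← ENNReal.tsum_mul_right, ← ENNReal.tsum_mul_left, mul_assoc]
  exact ENNReal.tsum_comm

lemma tsum_map {α β : Type} (p : PMF α) (f : α → β) (F : β → ℝ≥0∞) :
    ∑' b, p.map f b * F b = ∑' a, p a * F (f a) := by
  classical
  rw [PMF.map, tsum_bind]
  refine tsum_congr fun a => ?_
  rw [tsum_eq_single (f a) fun b hb => by simp [PMF.pure_apply, hb]]
  simp

lemma tsum_nu (m : PMF ℕ) (F : Finset P → ℝ) (hF : ∀ H, 0 ≤ F H) :
    ∑' H, nu m H * ENNReal.ofReal (F H) = ∑' l, m l * ENNReal.ofReal (avg l F) := by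
  rw [nu, tsum_bind]
  refine tsum_congr fun l => ?_
  rw [tsum_map, tsum_fintype, avg, ENNReal.ofReal_div_of_pos (by positivity),
    ENNReal.ofReal_sum_of_nonneg fun _ _ => hF _, ENNReal.ofReal_pow (by norm_num)]
  simp only [PMF.uniformOfFintype_apply, ← Finset.mul_sum]
  rw [ENNReal.div_eq_inv_mul]
  simp
  rfl

lemma perc_path {S : Set P} (h : Percolates S) : ∃ a ∈ S, {b | Path S a b}.Infinite := by
  obtain ⟨K, hK⟩ := h
  obtain ⟨a, ha⟩ := hK.nonempty
  refine ⟨a, a.2, (hK.image Subtype.val_injective.injOn).mono ?_⟩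
  rintro _ ⟨b, hb, rfl⟩
  have := (SimpleGraph.reachable_iff_reflTransGen _ _).1
    (SimpleGraph.ConnectedComponent.exact (ha.trans hb.symm))
  clear hb
  induction this with
  | refl => exact .refl
  | @tail b c _ k ih =>
    refine .tail ih ⟨?_, c.2⟩
    have k' : lattice.Adj b c := k
    have := ((SimpleGraph.fromRel_adj _ _ _).1 k').2
    unfold adj
    omega

/-- number of translates of a large `H` meeting a box -/
noncomputable def cnt (R : ℕ) (H : Finset P) : ℝ :=
  min (if R ≤ H.sup nm + 1 then 3969 * ((H.sup nm + 1 : ℕ) : ℝ) ^ 2 else 0)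
    ((61 * R) ^ 2 * H.card)

lemma cnt_nonneg (R : ℕ) (H : Finset P) : 0 ≤ cnt R H :=
  le_min (by split_ifs <;> positivity) (by positivity)

lemma big_le (m : PMF ℕ) (v : ℝ≥0) {R : ℕ} (hR : 0 < R) (c : P) :
    law m v (Big (fun i N => N i) (fun i => {y | y - i.1 ∈ i.2}) (fun i => i.2.sup nm + 1) c R) ≤
      v * ∑' l, m l * ENNReal.ofReal (avg l (cnt R)) := by
  classical
  set T : Finset P → Finset P := fun H => (box c (30 * R + H.sup nm)).filter fun x =>
    R ≤ H.sup nm + 1 ∧ ∃ y, y - x ∈ H ∧ nm (y - c) ≤ 30 * R with hT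
  have h1 : Big (fun i (N : P × Finset P → ℕ) => N i) (fun i => {y | y - i.1 ∈ i.2})
      (fun i => i.2.sup nm + 1) c R ⊆ ⋃ H, ⋃ x ∈ T H, {N | N (x, H) ≠ 0} := by
    rintro N ⟨⟨x, H⟩, a, ⟨y, b, d⟩, e⟩
    simp only [Set.mem_iUnion]
    refine ⟨H, x, Finset.mem_filter.2 ⟨mem_box.2 ?_, a, y, b, d⟩, e⟩
    have := tri' x y c
    have := Finset.le_sup (f := nm) b
    simp only at this
    omega
  have h2 : ∀ i, law m v {N | N i ≠ 0} ≤ v * nu m i.2 := by
    intro i
    have := (measurePreserving_eval_infinitePi (fun i : P × Finset P =>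
      poissonMeasure (v * (nu m i.2).toNNReal)) i).measure_preimage (s := {0}ᶜ)
      (MeasurableSet.of_discrete.nullMeasurableSet)
    refine this.trans_le ?_
    rw [prob_compl_eq_one_sub MeasurableSet.of_discrete, poissonMeasure_singleton,
      ← ENNReal.coe_toNNReal ((nu m).apply_ne_top i.2), ← ENNReal.coe_mul]
    simp only [ENNReal.toNNReal_coe]
    generalize v * (nu m i.2).toNNReal = r
    rw [tsub_le_iff_right, ← ENNReal.ofReal_coe_nnreal, ← ENNReal.ofReal_add r.coe_nonneg (by positivity),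
      ENNReal.one_le_ofReal]
    have := Real.add_one_le_exp (-(r : ℝ))
    simp
    linarith
  have h3 : ∀ H, ((T H).card : ℝ) ≤ cnt R H := by
    intro H
    have R1 : (1 : ℝ) ≤ R := by exact_mod_cast hR
    refine le_min ?_ ?_
    · split_ifs with h
      · have := (Finset.card_filter_le _ _ : (T H).card ≤ _).trans_eq (card_box _ _)
        have h4 : (T H).card ≤ 3969 * (H.sup nm + 1) ^ 2 :=
          this.trans ((Nat.pow_le_pow_left (show _ ≤ 63 * (H.sup nm + 1) by omega) 2).trans_eq
            (by ring))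
        exact_mod_cast h4
      · simp [hT, h]
    · have : T H ⊆ (box c (30 * R) ×ˢ H).image fun z => z.1 - z.2 := by
        intro x hx
        obtain ⟨y, a, b⟩ := (Finset.mem_filter.1 hx).2.2
        exact Finset.mem_image.2 ⟨(y, y - x), Finset.mem_product.2 ⟨mem_box.2 b, a⟩, by simp⟩
      have h4 := (Finset.card_le_card this).trans Finset.card_image_le
      rw [Finset.card_product, card_box] at h4
      have h5 : (T H).card ≤ (61 * R) ^ 2 * H.card :=
        h4.trans (Nat.mul_le_mul_right _ (Nat.pow_le_pow_left (by omega) 2))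
      exact_mod_cast h5
  refine (measure_mono h1).trans ((measure_iUnion_le _).trans ?_)
  rw [← tsum_nu m _ (cnt_nonneg R), ← ENNReal.tsum_mul_left]
  refine ENNReal.tsum_le_tsum fun H => (measure_biUnion_finset_le _ _).trans ?_
  refine (Finset.sum_le_card_nsmul _ _ (v * nu m H) fun x _ => h2 (x, H)).trans ?_
  rw [nsmul_eq_mul, mul_comm, mul_assoc, ← ENNReal.ofReal_natCast]
  gcongr
  exact h3 H

lemma exists_seq : ∃ l : ℕ → ℕ, l 0 = 1 ∧ StrictMono l ∧ (∀ j, 2 ^ j ≤ l j) ∧
    ∀ j, (61 * (l j + 1 : ℝ)) ^ 2 * avg (l (j + 1)) (fun H => H.card) ≤ l (j + 1) / 2 ^ (j + 1) := by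
  have h : ∀ j L : ℕ, ∃ l, L + 1 + 2 ^ (j + 1) ≤ l ∧
      (61 * (L + 1 : ℝ)) ^ 2 * avg l (fun H => H.card) ≤ l / 2 ^ (j + 1) := by
    intro j L
    obtain ⟨l, a, b⟩ := small_range (δ := 1 / 2 ^ (j + 1) / (61 * (L + 1 : ℝ)) ^ 2)
      (by positivity) (L + 1 + 2 ^ (j + 1))
    refine ⟨l, a, (mul_le_mul_of_nonneg_left b (by positivity)).trans_eq ?_⟩
    field_simp
  choose f f1 f2 using h
  obtain ⟨l, l0, l1⟩ : ∃ l : ℕ → ℕ, l 0 = 1 ∧ ∀ j, l (j + 1) = f j (l j) :=
    ⟨fun j => Nat.rec 1 f j, rfl, fun _ => rfl⟩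
  refine ⟨l, l0, strictMono_nat_of_lt_succ fun j => ?_, fun j => ?_, fun j => ?_⟩
  · rw [l1]
    exact lt_of_lt_of_le (Nat.lt_add_right _ (Nat.lt_succ_self _)) (f1 j _)
  · cases j with
    | zero => simp [l0]
    | succ j =>
      rw [l1]
      exact (Nat.le_add_left _ _).trans (f1 j _)
  · rw [l1]
    exact f2 j _

theorem result : ∃ m : PMF ℕ, m 0 = 0 ∧ ∑' l : ℕ, (l : ℝ≥0∞) * m l = ∞ ∧
    ∃ v₀ : ℝ≥0, 0 < v₀ ∧ ∀ v ≤ v₀, law m v {N | Percolates (occupied N)} = 0 := by
  obtain ⟨l, l0, l1, l2, l3⟩ := exists_seq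
  have lp : ∀ j, (0 : ℝ) < l j := fun j => by exact_mod_cast lt_of_lt_of_le (by positivity) (l2 j)
  set w : ℕ → ℝ≥0∞ := fun j => ENNReal.ofReal (1 / (j + 1) / l j) with hw
  have g2 : ∑' j : ℕ, ENNReal.ofReal ((1 / 2) ^ j) = ENNReal.ofReal 2 := by
    rw [← ENNReal.ofReal_tsum_of_nonneg (fun _ => by positivity) summable_geometric_two,
      tsum_geometric_two]
  have Z1 : 1 ≤ ∑' j, w j := le_trans (by simp [hw, l0]) (ENNReal.le_tsum 0)
  have Z2 : ∑' j, w j ≠ ∞ := by
    refine ne_top_of_le_ne_top ENNReal.ofReal_ne_top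
      ((ENNReal.tsum_le_tsum fun j => ENNReal.ofReal_le_ofReal ?_).trans_eq g2)
    have h1 : (2 : ℝ) ^ j ≤ l j := by exact_mod_cast l2 j
    have h2 : (1 : ℝ) / (j + 1) ≤ 1 := by
      rw [div_le_one (by positivity)]
      linarith [(Nat.cast_nonneg j : (0 : ℝ) ≤ j)]
    rw [one_div_pow]
    gcongr
  set p := PMF.normalize w (by intro h; simp [h] at Z1) Z2 with hp
  have hp' : ∀ j, p j = w j * (∑' j, w j)⁻¹ := fun j => PMF.normalize_apply _ _ j
  refine ⟨p.map l, ?_, ?_, 1 / (4 * 815409 * 39692), by norm_num, fun v hv => ?_⟩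
  · rw [PMF.apply_eq_zero_iff, PMF.support_map]
    rintro ⟨j, -, hj⟩
    have := lp j
    simp [hj] at this
  · simp only [mul_comm _ (p.map l _)]
    rw [tsum_map]
    simp only [hp', mul_right_comm _ _ (l _ : ℝ≥0∞)]
    rw [ENNReal.tsum_mul_right, ENNReal.mul_eq_top]
    refine Or.inr ⟨?_, ENNReal.inv_ne_zero.2 Z2⟩
    have h1 : ∀ j, w j * l j = ((1 / (j + 1) : ℝ≥0) : ℝ≥0∞) := fun j => by
      rw [hw, ← ENNReal.ofReal_natCast, ← ENNReal.ofReal_mul (by positivity),
        div_mul_cancel₀ _ (lp j).ne', ← ENNReal.ofReal_coe_nnreal]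
      simp
    simp only [h1]
    rw [ENNReal.tsum_coe_eq_top_iff_not_summable_coe]
    intro h
    refine Real.not_summable_one_div_natCast ((summable_nat_add_iff 1).1 ?_)
    simpa using h
  have key : ∀ R, 0 < R → ∃ i, R ≤ l i + 1 ∧ ∑' k, p.map l k * ENNReal.ofReal (avg k (cnt R)) ≤
      ENNReal.ofReal (39692 / (i + 1)) := by
    intro R hR
    have hex : ∃ i, R ≤ l i + 1 := ⟨R, (l1.id_le R).trans (Nat.le_succ _)⟩
    refine ⟨Nat.find hex, Nat.find_spec hex, ?_⟩
    have hmin := fun j => Nat.find_min hex (m := j)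
    have hi := Nat.find_spec hex
    generalize Nat.find hex = i at *
    rw [tsum_map]
    have h1 : ∀ j, 1 / (j + 1) / l j * avg (l j) (cnt R) ≤
        (if j = i then 39690 / (i + 1 : ℝ) else 0) + 1 / (i + 1) * (1 / 2) ^ j := by
      intro j
      rcases lt_trichotomy j i with h | h | h
      · have : avg (l j) (cnt R) ≤ 0 := (avg_mono (G := fun _ => 0) fun s => by
          have := sup_trace s
          have := hmin j h
          exact (min_le_left _ _).trans_eq (if_neg (by omega))).trans_eq (avg_const _ _)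
        refine (mul_nonpos_of_nonneg_of_nonpos (by have := lp j; positivity) this).trans ?_
        split_ifs <;> positivity
      · subst h
        have : avg (l j) (cnt R) ≤ 3969 * (10 * l j) := by
          refine (avg_mono (G := fun H => 3969 * ((H.sup nm + 1 : ℕ) : ℝ) ^ 2) fun s =>
            (min_le_left _ _).trans (by split_ifs <;> [exact le_rfl; positivity])).trans ?_
          rw [avg_mul]
          exact mul_le_mul_of_nonneg_left (avg_D ((Nat.one_le_two_pow).trans (l2 j))) (by norm_num)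
        refine (mul_le_mul_of_nonneg_left this (by have := lp j; positivity)).trans ?_
        have := lp j
        rw [if_pos rfl]
        refine le_add_of_le_of_nonneg (le_of_eq ?_) (by positivity)
        field_simp
        norm_num
      · obtain ⟨j, rfl⟩ := Nat.exists_eq_add_of_le' (show 1 ≤ j by omega)
        have h2 : (R : ℝ) ≤ l j + 1 := by
          exact_mod_cast hi.trans (Nat.succ_le_succ (l1.monotone (by omega)))
        have : avg (l (j + 1)) (cnt R) ≤ l (j + 1) / 2 ^ (j + 1) := by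
          refine le_trans ((avg_mono (G := fun H => (61 * (l j + 1 : ℝ)) ^ 2 * H.card) fun s =>
            (min_le_right _ _).trans (by gcongr)).trans_eq (avg_mul _ _ _)) (l3 j)
        refine (mul_le_mul_of_nonneg_left this (by have := lp (j + 1); positivity)).trans ?_
        have := lp (j + 1)
        have h3 : (i : ℝ) ≤ (j + 1 : ℕ) := by exact_mod_cast h.le
        rw [if_neg h.ne', zero_add, one_div_pow, show (1 : ℝ) / ((j + 1 : ℕ) + 1) / l (j + 1) *
          (l (j + 1) / 2 ^ (j + 1)) = 1 / ((j + 1 : ℕ) + 1) * (1 / 2 ^ (j + 1)) by field_simp]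
        gcongr
    calc _ ≤ ∑' j, ((if j = i then ENNReal.ofReal (39690 / (i + 1)) else 0) +
          ENNReal.ofReal (1 / (i + 1)) * ENNReal.ofReal ((1 / 2) ^ j)) := by
          refine ENNReal.tsum_le_tsum fun j => ?_
          calc _ ≤ w j * ENNReal.ofReal (avg (l j) (cnt R)) := by
                rw [hp']
                exact mul_le_mul_left (mul_le_of_le_one_right' (ENNReal.inv_le_one.2 Z1)) _
            _ ≤ _ := by
                rw [hw, ← ENNReal.ofReal_mul (by have := lp j; positivity),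
                  ← ENNReal.ofReal_mul (by positivity)]
                refine (ENNReal.ofReal_le_ofReal (h1 j)).trans (ENNReal.ofReal_add_le.trans ?_)
                split_ifs <;> simp
      _ = _ := by
          rw [ENNReal.tsum_add, tsum_ite_eq, ENNReal.tsum_mul_left, g2,
            ← ENNReal.ofReal_mul (by positivity), ← ENNReal.ofReal_add (by positivity)
            (by positivity)]
          congr 1
          ring
  have : IsProbabilityMeasure (law (p.map l) v) := by unfold law; infer_instance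
  have hv' : (v : ℝ) ≤ 1 / (4 * 815409 * 39692) := by exact_mod_cast hv
  have key2 : ∀ R, 0 < R → ∃ i, R ≤ l i + 1 ∧ ∀ c, (law (p.map l) v).real
      (Big (fun i N => N i) (fun i => {y | y - i.1 ∈ i.2}) (fun i => i.2.sup nm + 1) c R) ≤
      1 / (4 * 815409) / (i + 1) := by
    intro R hR
    obtain ⟨i, a, b⟩ := key R hR
    refine ⟨i, a, fun c => ENNReal.toReal_le_of_le_ofReal (by positivity)
      ((big_le _ v hR c).trans ((mul_le_mul_right b _).trans ?_))⟩
    rw [← ENNReal.ofReal_coe_nnreal, ← ENNReal.ofReal_mul v.coe_nonneg, ← mul_div_assoc]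
    refine ENNReal.ofReal_le_ofReal (div_le_div_of_nonneg_right ?_ (by positivity))
    linarith
  have h := no_perc (μ := law (p.map l) v) (N := fun i N => N i)
    (A := fun i => {y | y - i.1 ∈ i.2}) (x := Prod.fst) (D := fun i => i.2.sup nm + 1)
    (fun i => measurable_pi_apply i)
    (iIndepFun_infinitePi (X := fun _ n => n) fun _ => measurable_id)
    (fun i y hy => (Finset.le_sup (f := nm) hy).trans (Nat.le_succ _)) (fun i => by omega)
    (fun R hR c => by
      obtain ⟨i, -, b⟩ := key2 R hR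
      exact (b c).trans (div_le_self (by norm_num) (by simp)))
    (fun η hη => by
      obtain ⟨J, hJ⟩ := exists_nat_one_div_lt hη
      filter_upwards [eventually_gt_atTop (l J + 1)] with R hR c
      obtain ⟨i, a, b⟩ := key2 R (by omega)
      have : (J : ℝ) ≤ i := by exact_mod_cast (l1.lt_iff_lt.1 (by omega : l J < l i)).le
      refine (b c).trans (le_trans ?_ hJ.le)
      gcongr
      norm_num)
  refine measure_mono_null (fun N hN => ?_) h
  have : occupied N = occ (fun i N => N i) (fun i => {y | y - i.1 ∈ i.2}) Set.univ N := by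
    ext y
    simp [occupied, occ]
  rw [Set.mem_ofPred_eq, ← this]
  exact perc_path hN

end Pool.Agent.Results.MP_e1341d_pr.InfiniteMean
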